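import Pool.Agent.Helper77.PPS.GoalsH

/-!
# Project PP (MP_fc6b1e_nt), part A3, packet H_HT
-/

namespace Pool.Agent.Helper50.PPS

open Pool.Agent.Helper77.PPS
open Pool.Agent.Helper17.PP (Sys)

theorem gK_one {κ : ℝ} (hκ : 1 ≤ κ) (Y : ℝ) : 1 ≤ gK κ Y :=
  Real.one_le_rpow (le_max_left _ _) (by linarith)

theorem h_ht (h1 : Pool.Agent.Helper77.PPS.P_HTE) : Pool.Agent.Helper77.PPS.H_HT := by
  classical
  intro C κ A hκ
  obtain ⟨C₁, hC₁, hH⟩ := h1 C A
  refine ⟨C₁ * (Real.exp C + 2 * Real.exp (κ * Real.log (Real.log 2) + C)), ?_⟩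
  intro p B B₀ k U Λ W _ _ _ _ _ _ S hP hms f hf Y hY P
  obtain ⟨hsum, hbig, hsmall⟩ := hH B S.N hP f hf
  have hwt : ∀ b : Finset B, 0 ≤ wt f b := fun b => Finset.prod_nonneg fun q _ => (hf q).1
  have hupto : S.upto Y = pr S.N Y := by
    ext q
    rw [mem_pr hP]
    unfold Sys.upto
    rw [Set.Finite.mem_toFinset]
    show S.N q ≤ ⌊Y⌋₊ ↔ _
    rw [Nat.le_floor_iff hY.le]
  have hle : ∑ b ∈ P.powerset, (∏ q ∈ b, f q) * Real.exp (-(S.nm b / Y)) ≤
      ∑' b : Finset B, wt f b * Real.exp (-(nb S.N b : ℝ) / Y) := by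
    have h2 : ∀ b : Finset B, (∏ q ∈ b, f q) * Real.exp (-(S.nm b / Y)) =
        wt f b * Real.exp (-(nb S.N b : ℝ) / Y) := by
      intro b
      rw [neg_div]
      rfl
    simp only [h2]
    exact (hsum Y hY).sum_le_tsum _ (fun b _ => mul_nonneg (hwt b) (Real.exp_pos _).le)
  refine hle.trans ?_
  rw [hupto]
  have hg := gK_one hκ Y
  set E := Real.exp (∑ q ∈ pr S.N Y, (f q - 1) / S.N q) with hE
  have hE0 : 0 < E := Real.exp_pos _
  have hmin : 0 < min 1 Y := lt_min one_pos hY
  rcases le_total 2 Y with h2Y | hY2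
  · -- large Y
    refine (hbig Y h2Y).trans ?_
    have hlogY : 0 < Real.log Y := Real.log_pos (by linarith)
    have hm : min 1 Y = 1 := min_eq_left (by linarith)
    have hms2 : ms S.N f Y = ms S.N (fun _ => 1) Y + ∑ q ∈ pr S.N Y, (f q - 1) / S.N q := by
      unfold ms
      rw [← Finset.sum_add_distrib]
      refine Finset.sum_congr rfl fun q _ => ?_
      rw [← add_div]
      congr 1
      ring
    have hexp : Real.exp (ms S.N f Y) ≤ Real.exp C * Real.log Y ^ κ * E := by
      rw [hms2, Real.exp_add, ← hE]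
      refine mul_le_mul_of_nonneg_right ?_ hE0.le
      refine (Real.exp_le_exp.2 (hms Y h2Y)).trans (le_of_eq ?_)
      rw [Real.exp_add, mul_comm (Real.exp C), Real.rpow_def_of_pos hlogY, mul_comm κ]
    have hpow : Real.log Y ^ κ = Real.log Y * Real.log Y ^ (κ - 1) := by
      rw [Real.rpow_sub_one hlogY.ne']
      field_simp
    have hgK : Real.log Y ^ (κ - 1) ≤ gK κ Y := by
      unfold gK
      refine Real.rpow_le_rpow hlogY.le ?_ (by linarith)
      rw [max_eq_right (by linarith : (1 : ℝ) ≤ Y)]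
      exact le_max_right _ _
    rw [hm]
    have h3 : mag S.N f Y ≤ Real.exp C * (Y * gK κ Y) * E := by
      unfold mag
      calc Y / Real.log Y * Real.exp (ms S.N f Y) ≤
          Y / Real.log Y * (Real.exp C * Real.log Y ^ κ * E) := by
            refine mul_le_mul_of_nonneg_left hexp (by positivity)
        _ = Real.exp C * (Y * Real.log Y ^ (κ - 1)) * E := by
            rw [hpow]; field_simp
        _ ≤ Real.exp C * (Y * gK κ Y) * E := by
            refine mul_le_mul_of_nonneg_right ?_ hE0.le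
            refine mul_le_mul_of_nonneg_left ?_ (Real.exp_pos _).le
            exact mul_le_mul_of_nonneg_left hgK hY.le
    calc C₁ * mag S.N f Y ≤ C₁ * (Real.exp C * (Y * gK κ Y) * E) :=
          mul_le_mul_of_nonneg_left h3 hC₁.le
      _ = C₁ * Real.exp C * (Y * 1 * gK κ Y) * E := by ring
      _ ≤ C₁ * (Real.exp C + 2 * Real.exp (κ * Real.log (Real.log 2) + C)) *
          (Y * 1 * gK κ Y) * E := by
            refine mul_le_mul_of_nonneg_right ?_ hE0.le
            refine mul_le_mul_of_nonneg_right ?_ (by positivity)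
            refine mul_le_mul_of_nonneg_left ?_ hC₁.le
            have := Real.exp_pos (κ * Real.log (Real.log 2) + C)
            linarith
  · -- small Y
    refine (hsmall Y hY hY2).trans ?_
    have h3 : Y ^ 2 ≤ 2 * (Y * min 1 Y) := by
      rcases le_total 1 Y with h | h
      · rw [min_eq_left h]; nlinarith
      · rw [min_eq_right h]; nlinarith
    have h4 : Real.exp (-(κ * Real.log (Real.log 2) + C)) ≤ E := by
      rw [hE]
      refine Real.exp_le_exp.2 ?_
      have h5 : ∑ q ∈ pr S.N Y, (1 : ℝ) / S.N q ≤ ms S.N (fun _ => 1) 2 := by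
        unfold ms
        refine Finset.sum_le_sum_of_subset_of_nonneg ?_ ?_
        · intro q hq
          rw [mem_pr hP] at hq ⊢
          exact hq.trans hY2
        · intro q _ _
          positivity
      have h6 := hms 2 le_rfl
      have h7 : -∑ q ∈ pr S.N Y, (1 : ℝ) / S.N q ≤ ∑ q ∈ pr S.N Y, (f q - 1) / S.N q := by
        rw [← Finset.sum_neg_distrib]
        refine Finset.sum_le_sum fun q _ => ?_
        rw [← neg_div]
        refine div_le_div_of_nonneg_right ?_ (by positivity)
        have := (hf q).1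
        linarith
      linarith
    have h5 : 1 ≤ Real.exp (κ * Real.log (Real.log 2) + C) * E := by
      have h6 := mul_le_mul_of_nonneg_left h4 (Real.exp_pos (κ * Real.log (Real.log 2) + C)).le
      rwa [← Real.exp_add, add_neg_cancel, Real.exp_zero] at h6
    have h6 : Y ^ 2 ≤ 2 * (Y * min 1 Y) * gK κ Y * (Real.exp (κ * Real.log (Real.log 2) + C) * E) := by
      calc Y ^ 2 ≤ 2 * (Y * min 1 Y) := h3
        _ ≤ 2 * (Y * min 1 Y) * gK κ Y := le_mul_of_one_le_right (by positivity) hg
        _ ≤ _ := le_mul_of_one_le_right (by positivity) h5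
    calc C₁ * Y ^ 2 ≤ C₁ * (2 * (Y * min 1 Y) * gK κ Y *
          (Real.exp (κ * Real.log (Real.log 2) + C) * E)) := mul_le_mul_of_nonneg_left h6 hC₁.le
      _ = C₁ * (2 * Real.exp (κ * Real.log (Real.log 2) + C)) * (Y * min 1 Y * gK κ Y) * E := by
          ring
      _ ≤ C₁ * (Real.exp C + 2 * Real.exp (κ * Real.log (Real.log 2) + C)) *
          (Y * min 1 Y * gK κ Y) * E := by
            refine mul_le_mul_of_nonneg_right ?_ hE0.le
            refine mul_le_mul_of_nonneg_right ?_ (by positivity)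
            refine mul_le_mul_of_nonneg_left ?_ hC₁.le
            have := Real.exp_pos C
            linarith

end Pool.Agent.Helper50.PPS
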